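import Pool.Agent.H4.Coarse

set_option autoImplicit false

namespace Pool.Agent.Results.MP_8ede36_co.LocFin

/-- A connected locally finite graph (of unbounded degree) that is roughly isometric to the
Euclidean plane with multiplicative constant 1. -/
theorem result :
    ∃ (V : Type) (G : SimpleGraph V) (f : V → EuclideanSpace ℝ (Fin 2)) (C : ℝ),
      0 < C ∧ G.Connected ∧ (∀ v, (G.neighborSet v).Finite) ∧
      (∀ D : ℕ, ∃ v, D ≤ (G.neighborSet v).ncard) ∧
      (∀ x y, |‖f x - f y‖ - (G.dist x y : ℝ)| < C) ∧ ∀ z, ∃ x, ‖f x - z‖ < C :=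
  Pool.Agent.H4.Coarse.main

end Pool.Agent.Results.MP_8ede36_co.LocFin
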